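import Pool.Agent.Helper65.HF.StN

/-!
# Project HF (MP_b56c98_ag): module MID (inside the window)
-/

namespace Pool.Agent.Helper52.HF

open MvPolynomial Pool.Agent.Helper45 Pool.Agent.Helper65.HF Filter

private lemma wd_mul {p q M : ℕ} : wd p M * (M : ℝ) ^ q = wd (p + q) M := by
  unfold wd
  rw [pow_add]
  ring

theorem hMID : Pool.Agent.Helper65.HF.sMID := by
  intro hHUP hEEB hBEL k _ _ j d cs C hj hjd hZ
  obtain ⟨C1, M1, hC1⟩ := hBEL k j d hj hjd cs hZ
  obtain ⟨η, c1, C2, -, hη, -, hC2, -, -, -, hE, -, -⟩ := hEEB j d cs hj hZ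
  have hcs : 0 < cs := hZ.1
  set C3 : ℝ := max (max C C1) 0 + 1 with hC3
  have hC30 : 0 < C3 := by
    have := le_max_right (max C C1) 0
    linarith
  have hCC3 : C ≤ C3 := by
    have h1 := le_max_left C C1
    have h2 := le_max_left (max C C1) 0
    linarith
  have hC1C3 : C1 ≤ C3 := by
    have h1 := le_max_right C C1
    have h2 := le_max_left (max C C1) 0
    linarith
  have hε : 0 < (cs / C3) ^ 2 := by positivity
  obtain ⟨M2, hM2⟩ := eventually_atTop.1
    (tendsto_natCast_atTop_atTop.eventually (Real.isLittleO_log_id_atTop.def hε))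
  refine ⟨C2 * (C3 + 2), max (max M1 M2) 3, fun M hM r hr => ?_⟩
  have hMM1 : M1 ≤ M := le_trans (le_trans (le_max_left _ _) (le_max_left _ _)) hM
  have hMM2 : M2 ≤ M := le_trans (le_trans (le_max_right _ _) (le_max_left _ _)) hM
  have hM3 : 3 ≤ M := le_trans (le_max_right _ _) hM
  have hM3' : (3 : ℝ) ≤ M := by exact_mod_cast hM3
  have hM0 : (0 : ℝ) < M := by linarith
  have hlog : 1 ≤ Real.log M := by
    have h1 : Real.log (Real.exp 1) ≤ Real.log M := by
      apply Real.log_le_log (Real.exp_pos 1)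
      have := Real.exp_one_lt_d9
      linarith
    rwa [Real.log_exp] at h1
  have hsq1 : 1 ≤ Real.sqrt (M * Real.log M) := by
    rw [Real.one_le_sqrt]
    nlinarith
  have hsq2 : Real.sqrt (M * Real.log M) ≤ cs / C3 * M := by
    have h1 := hM2 M hMM2
    rw [Real.norm_eq_abs, Real.norm_eq_abs, id, abs_of_nonneg (by linarith),
      abs_of_nonneg hM0.le] at h1
    apply Real.sqrt_le_iff.2
    refine ⟨by positivity, ?_⟩
    have h2 : (M : ℝ) * Real.log M ≤ M * ((cs / C3) ^ 2 * M) :=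
      mul_le_mul_of_nonneg_left h1 hM0.le
    calc (M : ℝ) * Real.log M ≤ M * ((cs / C3) ^ 2 * M) := h2
      _ = (cs / C3 * M) ^ 2 := by ring
  have hwd : ∀ p, (M : ℝ) ^ p ≤ wd p M := fun p => by
    unfold wd
    exact le_mul_of_one_le_right (by positivity) hsq1
  have hwd0 : ∀ p, 0 ≤ wd p M := fun p => le_trans (by positivity) (hwd p)
  have hx : 0 ≤ cs * (M : ℝ) ^ j - C3 * wd (j - 1) M := by
    have h1 : C3 * wd (j - 1) M ≤ C3 * ((M : ℝ) ^ (j - 1) * (cs / C3 * M)) := by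
      unfold wd
      gcongr
    have h2 : C3 * ((M : ℝ) ^ (j - 1) * (cs / C3 * M)) = cs * (M : ℝ) ^ j := by
      obtain ⟨i, rfl⟩ : ∃ i, j = i + 1 := ⟨j - 1, by omega⟩
      rw [Nat.add_sub_cancel, pow_succ]
      field_simp
    linarith
  set r0 : ℕ := ⌊cs * (M : ℝ) ^ j - C3 * wd (j - 1) M⌋₊ with hr0
  have hr0le : (r0 : ℝ) ≤ cs * (M : ℝ) ^ j - C3 * wd (j - 1) M := Nat.floor_le hx
  have hr0gt : cs * (M : ℝ) ^ j - C3 * wd (j - 1) M < r0 + 1 := Nat.lt_floor_add_one _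
  have hr0r : r0 ≤ r := by
    have h1 : (r0 : ℝ) ≤ r := by
      have := mul_le_mul_of_nonneg_right hCC3 (hwd0 (j - 1))
      linarith
    exact_mod_cast h1
  have hanti : Antitone fun r => H k j M r d :=
    antitone_nat_of_succ_le fun r => (hHUP k j M r d (by omega)).2.2.2.1
  have hH : (H k j M r d : ℝ) ≤ (H k j M r0 d : ℝ) := by exact_mod_cast hanti hr0r
  have hB : (H k j M r0 d : ℤ) = EE j M r0 d := by
    apply hC1 M hMM1 r0
    have := mul_le_mul_of_nonneg_right hC1C3 (hwd0 (j - 1))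
    linarith
  have hB' : (H k j M r0 d : ℝ) = (EE j M r0 d : ℝ) := by exact_mod_cast hB
  have hr0cs : (r0 : ℝ) ≤ cs * (M : ℝ) ^ j := by
    have : 0 ≤ C3 * wd (j - 1) M := mul_nonneg hC30.le (hwd0 _)
    linarith
  have hEE := (hE M r0 (by omega) hr0cs).2
  have hpow : (M : ℝ) ^ j * (M : ℝ) ^ (d - j) = (M : ℝ) ^ d := by
    rw [← pow_add]
    congr 1
    omega
  have h1 : (cs - (r0 : ℝ) / (M : ℝ) ^ j) * (M : ℝ) ^ d ≤ (C3 + 1) * wd (d - 1) M := by
    have e1 : (cs - (r0 : ℝ) / (M : ℝ) ^ j) * (M : ℝ) ^ d =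
        (cs * (M : ℝ) ^ j - r0) * (M : ℝ) ^ (d - j) := by
      rw [← hpow]
      have : (M : ℝ) ^ j ≠ 0 := by positivity
      field_simp
    rw [e1]
    have h2 : cs * (M : ℝ) ^ j - r0 ≤ C3 * wd (j - 1) M + 1 := by linarith
    calc (cs * (M : ℝ) ^ j - r0) * (M : ℝ) ^ (d - j)
        ≤ (C3 * wd (j - 1) M + 1) * (M : ℝ) ^ (d - j) :=
          mul_le_mul_of_nonneg_right h2 (by positivity)
      _ = C3 * (wd (j - 1) M * (M : ℝ) ^ (d - j)) + (M : ℝ) ^ (d - j) := by ring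
      _ = C3 * wd (d - 1) M + (M : ℝ) ^ (d - j) := by
          rw [wd_mul]
          have : j - 1 + (d - j) = d - 1 := by omega
          rw [this]
      _ ≤ C3 * wd (d - 1) M + wd (d - 1) M := by
          have h3 : (M : ℝ) ^ (d - j) ≤ (M : ℝ) ^ (d - 1) :=
            pow_le_pow_right₀ (by linarith) (by omega)
          have h4 := hwd (d - 1)
          linarith
      _ = (C3 + 1) * wd (d - 1) M := by ring
  have h5 : (EE j M r0 d : ℝ) ≤ C2 * ((C3 + 1) * wd (d - 1) M) + C2 * wd (d - 1) M := by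
    refine hEE.trans ?_
    have h6 : C2 * (cs - (r0 : ℝ) / (M : ℝ) ^ j) * (M : ℝ) ^ d =
        C2 * ((cs - (r0 : ℝ) / (M : ℝ) ^ j) * (M : ℝ) ^ d) := by ring
    rw [h6]
    have h7 := mul_le_mul_of_nonneg_left h1 (show 0 ≤ C2 by linarith)
    have h8 := mul_le_mul_of_nonneg_left (hwd (d - 1)) (show 0 ≤ C2 by linarith)
    linarith
  calc (H k j M r d : ℝ) ≤ (H k j M r0 d : ℝ) := hH
    _ = (EE j M r0 d : ℝ) := hB'
    _ ≤ C2 * ((C3 + 1) * wd (d - 1) M) + C2 * wd (d - 1) M := h5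
    _ = C2 * (C3 + 2) * wd (d - 1) M := by ring

end Pool.Agent.Helper52.HF
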