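import Pool.Agent.Helper65.HF.StA

/-!
# Project HF (MP_b56c98_ag): module UPP (combinatorial properties of the standard lists)
-/

namespace Pool.Agent.Helper52.HF

open MvPolynomial Pool.Agent.Helper45 Pool.Agent.Helper65.HF

private lemma exists_bound (l : List ℕ) : ∃ N, ∀ x ∈ l, x < N :=
  ⟨l.toFinset.sup id + 1, fun x hx =>
    Nat.lt_succ_of_le (Finset.le_sup (f := id) (List.mem_toFinset.2 hx))⟩

theorem hUPP : Pool.Agent.Helper65.HF.sUPP := by
  intro hRLO hDRV hCLR hCPT hLSM hMUX k _ _ j r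
  obtain ⟨-, hL2, hL3, -⟩ := hLSM
  -- independence of the number of variables
  have hle : ∀ (N N' : ℕ) (l : List ℕ), N ≤ N' → (∀ x ∈ l, x < N) →
      (Ld (idl (gP k) j N r) (mon N l) ↔ Ld (idl (gP k) j N' r) (mon N' l)) := by
    intro N N' l hNN hN
    rw [← hCLR k j N r, ← hCLR k j N' r]
    exact hCPT _ (gF k) j N N' r l hNN hN
  have hind : ∀ (N N' : ℕ) (l : List ℕ), (∀ x ∈ l, x < N) → (∀ x ∈ l, x < N') →
      (Ld (idl (gP k) j N r) (mon N l) ↔ Ld (idl (gP k) j N' r) (mon N' l)) := by
    intro N N' l hN hN'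
    rcases le_total N N' with h | h
    · exact hle N N' l h hN
    · exact (hle N' N l h hN').symm
  have hthird : ∀ (N : ℕ) (l : List ℕ), (∀ x ∈ l, x < N) →
      (StA k j r l ↔ ¬ Ld (idl (gP k) j N r) (mon N l)) := by
    intro N l hN
    constructor
    · intro h
      exact h N hN
    · intro h N' hN' hc
      exact h ((hind N' N l hN' hN).1 hc)
  -- changing the entries one at a time
  have hstep : ∀ (N : ℕ) (l l' : List ℕ), LeL l l' → (∀ x ∈ l, x < N) → (∀ x ∈ l', x < N) →
      ∀ p : List ℕ, Ld (idl (gP k) j N r) (mon N (p ++ l')) →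
        Ld (idl (gP k) j N r) (mon N (p ++ l)) := by
    intro N l l' hll
    induction hll with
    | nil => intro _ _ p h; exact h
    | @cons x y l l' hxy _ ih =>
      intro hl hl' p h
      have hx : x < N := hl x List.mem_cons_self
      have hy : y < N := hl' y List.mem_cons_self
      have h1 : Ld (idl (gP k) j N r) (mon N (p ++ x :: l')) := by
        rcases hxy.lt_or_eq with hlt | heq
        · obtain ⟨e1, e2⟩ := hL3 N p l' ⟨x, hx⟩ ⟨y, hy⟩
          have h2 := hDRV k j N r (mon N (p ++ y :: l')) ⟨x, hx⟩ ⟨y, hy⟩ hlt e2 h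
          exact e1 ▸ h2
        · rw [heq]
          exact h
      have h3 := ih (fun z hz => hl z (List.mem_cons_of_mem _ hz))
        (fun z hz => hl' z (List.mem_cons_of_mem _ hz)) (p ++ [x])
      rw [List.append_assoc, List.append_assoc] at h3
      exact h3 h1
  refine ⟨?_, ?_, hthird⟩
  · intro l l' _ _ hll hSt
    obtain ⟨N, hN⟩ := exists_bound (l ++ l')
    have hl : ∀ x ∈ l, x < N := fun x hx => hN x (List.mem_append_left _ hx)
    have hl' : ∀ x ∈ l', x < N := fun x hx => hN x (List.mem_append_right _ hx)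
    rw [hthird N l' hl']
    intro hc
    exact (hthird N l hl).1 hSt (hstep N l l' hll hl hl' [] hc)
  · intro l b _ hSt
    obtain ⟨N, hN⟩ := exists_bound (l ++ [b])
    have hl : ∀ x ∈ l, x < N := fun x hx => hN x (List.mem_append_left _ hx)
    have hb : b < N := hN b (List.mem_append_right _ List.mem_cons_self)
    rw [hthird N l hl]
    intro hc
    refine (hthird N (l ++ [b]) hN).1 hSt ?_
    have h2 := hL2 N l ⟨b, hb⟩
    have h3 := hMUX _ N _ (mon N l) ⟨b, hb⟩ hc
    rw [← h2] at h3
    exact h3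

end Pool.Agent.Helper52.HF
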